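import Pool.Agent.H.MP_d00095_nt.B

open Quaternion NumberField

namespace Pool.Agent.Results.MP_d00095_nt.AllEuclid

/-- The orthogonal involution `z ↦ u (star z) u⁻¹`; `star` is the standard involution. -/
def dag {K : Type} [Field K] {a b : K} (u : (ℍ[K,a,b])ˣ) (z : ℍ[K,a,b]) : ℍ[K,a,b] :=
  (u : ℍ[K,a,b]) * star z * (u⁻¹ : (ℍ[K,a,b])ˣ)

/-- A `‡`-order: a subring that is a finitely generated module over the ring of integers,
spans the algebra over `K` and is mapped onto itself by `‡`. -/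
def IsDagOrder {K : Type} [Field K] {a b : K} (u : (ℍ[K,a,b])ˣ)
    (O : Subalgebra (𝓞 K) ℍ[K,a,b]) : Prop :=
  (Subalgebra.toSubmodule O).FG ∧ Submodule.span K (O : Set ℍ[K,a,b]) = ⊤ ∧
    dag u '' (O : Set ℍ[K,a,b]) = O

/-- A maximal `‡`-order. -/
def IsMaxDagOrder {K : Type} [Field K] {a b : K} (u : (ℍ[K,a,b])ˣ)
    (O : Subalgebra (𝓞 K) ℍ[K,a,b]) : Prop :=
  IsDagOrder u O ∧ ∀ P, IsDagOrder u P → ¬ O < P

/-- `O` is `‡`-Euclidean with a function into the well-ordered set `W`. -/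
def DagEuclid (W : Type*) [LinearOrder W] {K : Type} [Field K] {a b : K} (u : (ℍ[K,a,b])ˣ)
    (O : Subalgebra (𝓞 K) ℍ[K,a,b]) : Prop :=
  ∃ f : O → W, ∀ x y : O, y ≠ 0 → dag u (x * dag u y) = x * dag u y →
    ∃ q : O, dag u q = q ∧ f (x - y * q) < f y

open Pool.Agent.H.MP_d00095_nt in
theorem result (K : Type) [Field K] [NumberField K] (a b : K) (_ha : a ≠ 0) (_hb : b ≠ 0)
    (u : (ℍ[K,a,b])ˣ) (hu : (u : ℍ[K,a,b]) ∉ Set.range (algebraMap K ℍ[K,a,b]))
    (hu2 : (u : ℍ[K,a,b]) ^ 2 ∈ Set.range (algebraMap K ℍ[K,a,b]))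
    (W : Type*) [LinearOrder W] [WellFoundedLT W]
    (O : Subalgebra (𝓞 K) ℍ[K,a,b]) (hO : IsDagOrder u O) (hE : DagEuclid W u O)
    (P : Subalgebra (𝓞 K) ℍ[K,a,b]) (hP : IsMaxDagOrder u P) : DagEuclid W u P := by
  have ce : ∀ x : ℍ[K,a,b], star x = (2 * x.re) • (1 : ℍ[K,a,b]) - x := fun x => by
    ext <;> simp
    ring
  have mc : ∀ x : ℍ[K,a,b], x * star x = (x * star x).re • (1 : ℍ[K,a,b]) := fun x => by
    ext <;> simp <;> ring
  have su : star (u : ℍ[K,a,b]) = -u := by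
    rw [ce]
    by_cases h : (u : ℍ[K,a,b]).re = 0
    · simp [h]
    obtain ⟨k, hk⟩ := hu2
    refine absurd ⟨(2 * (u : ℍ[K,a,b]).re)⁻¹ * (k + ((u : ℍ[K,a,b]) * star (u : ℍ[K,a,b])).re), ?_⟩ hu
    have h1 := mc u
    rw [Algebra.algebraMap_eq_smul_one] at hk ⊢
    rw [mul_smul, add_smul, ← h1, hk, ce, mul_sub, mul_smul_comm, mul_one, sq, add_sub_cancel,
      smul_smul, inv_mul_cancel₀ (by simpa using h), one_smul]
  have si : star ((u⁻¹ : (ℍ[K,a,b])ˣ) : ℍ[K,a,b]) = -(u⁻¹ : (ℍ[K,a,b])ˣ) := by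
    have : star ((u⁻¹ : (ℍ[K,a,b])ˣ) : ℍ[K,a,b]) * star (u : ℍ[K,a,b]) = 1 := by
      rw [← star_mul, Units.mul_inv, star_one]
    rw [su, mul_neg, neg_eq_iff_eq_neg, ← Units.eq_mul_inv_iff_mul_eq] at this
    rw [this, neg_one_mul]
  have rc : ∀ x y : ℍ[K,a,b], (x * y).re = (y * x).re := fun x y => by
    simp
    ring
  let D : QD K ℍ[K,a,b] :=
    { c := { toFun := star, map_add' := star_add, map_smul' := fun k x => by ext <;> simp }
      d := { toFun := dag u
             map_add' := fun x y => by simp [dag, mul_add, add_mul]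
             map_smul' := fun k x => by
              have : star (k • x) = k • star x := by ext <;> simp
              simp [dag, this] }
      t := (2 : K) • QuaternionAlgebra.reₗ a 0 b
      n := fun x => (x * star x).re
      c_mul := star_mul
      d_mul := fun x y => by simp [dag, mul_assoc]
      d_d := fun x => by simp [dag, su, si, mul_assoc]
      d_one := by simp [dag]
      c_eq := ce
      mul_c := mc
      t_one := by simp
      t_d := fun x => by
        change 2 * (dag u x).re = 2 * x.re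
        rw [dag, rc, ← mul_assoc, Units.inv_mul, one_mul]
        simp
      two := two_ne_zero
      inj := fun s t h => by simpa using congrArg QuaternionAlgebra.re h }
  have ho : ∀ Q, IsDagOrder u Q ↔ D.Ord Q := fun Q => and_congr_right fun _ => and_congr_right
    fun _ => ⟨fun h x hx => by
      have : dag u x ∈ dag u '' (Q : Set ℍ[K,a,b]) := ⟨x, hx, rfl⟩
      rwa [h] at this, fun h => Set.Subset.antisymm (by
      rintro _ ⟨x, hx, rfl⟩
      exact h x hx) fun x hx => ⟨D.d x, h x hx, D.d_d x⟩⟩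
  obtain ⟨f, hf⟩ := hE
  classical
  obtain ⟨g, hg⟩ := main (D := D) (W := W) ((ho O).1 hO)
    ⟨fun x => if h : x ∈ O then f ⟨x, h⟩ else f 0, fun x hx y hy y0 h => by
      obtain ⟨q, h1, h2⟩ := hf ⟨x, hx⟩ ⟨y, hy⟩ (fun c => y0 (congrArg Subtype.val c)) h
      refine ⟨q, q.2, h1, ?_⟩
      simp only [dif_pos hy, dif_pos (sub_mem hx (mul_mem hy q.2))]
      exact h2⟩ ((ho P).1 hP.1)
    (fun Q h1 h2 => (h2.eq_of_not_lt (hP.2 Q ((ho Q).2 h1))).symm)
  refine ⟨fun x => g x, fun x y y0 h => ?_⟩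
  obtain ⟨q, h1, h2, h3⟩ := hg x x.2 y y.2 (fun c => y0 (Subtype.ext c)) h
  exact ⟨⟨q, h1⟩, h2, h3⟩

end Pool.Agent.Results.MP_d00095_nt.AllEuclid
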